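import Pool.Agent.H629.CG.Stm

/-!
# CG: Kahane's inequality for fields
-/

set_option autoImplicit false

namespace Pool.Agent.H670.CG.KAH

open MeasureTheory ProbabilityTheory Filter Topology Set
open scoped ENNReal NNReal
open Pool.Agent.H629.CG

/-- The normalised restriction of Lebesgue measure. -/
noncomputable def nu (A : Set ℝ) : Measure ℝ := (volume A)⁻¹ • (volume.restrict A)

theorem nu_prob (A : Set ℝ) (h0 : 0 < volume A) (h1 : volume A ≠ ∞) :
    IsProbabilityMeasure (nu A) := by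
  constructor
  simp only [nu, Measure.smul_apply, Measure.restrict_apply MeasurableSet.univ, univ_inter,
    smul_eq_mul]
  exact ENNReal.inv_mul_cancel h0.ne' h1

theorem nu_ae (A : Set ℝ) (hA : MeasurableSet A) : ∀ᵐ u ∂(nu A), u ∈ A := by
  have h := ae_restrict_mem (μ := (volume : Measure ℝ)) hA
  exact Measure.ae_smul_measure h _

theorem mas_nu {Ω : Type} (A : Set ℝ) (h0 : 0 < volume A) (h1 : volume A ≠ ∞)
    (X : ℝ → Ω → ℝ) (ω : Ω) :
    mas A X ω = volume A * ∫⁻ u, ENNReal.ofReal (Real.exp (X u ω)) ∂(nu A) := by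
  unfold mas nu
  rw [lintegral_smul_measure, smul_eq_mul, ← mul_assoc, ENNReal.mul_inv_cancel h0.ne' h1, one_mul]

theorem meas_sec {Ω : Type} [MeasurableSpace Ω] (X : ℝ → Ω → ℝ)
    (hX : Measurable (Function.uncurry X)) (ω : Ω) :
    Measurable (fun u => ENNReal.ofReal (Real.exp (X u ω))) := by
  have h : Measurable (fun u => X u ω) := hX.comp (measurable_id.prodMk measurable_const)
  exact (Real.measurable_exp.comp h).ennreal_ofReal

theorem int_ne_zero {Ω : Type} [MeasurableSpace Ω] (A : Set ℝ) (h0 : 0 < volume A)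
    (h1 : volume A ≠ ∞) (X : ℝ → Ω → ℝ) (hX : Measurable (Function.uncurry X)) (ω : Ω) :
    ∫⁻ u, ENNReal.ofReal (Real.exp (X u ω)) ∂(nu A) ≠ 0 := by
  intro h
  rw [lintegral_eq_zero_iff (meas_sec X hX ω)] at h
  have := nu_prob A h0 h1
  have h2 : ∀ᵐ u ∂(nu A), False := by
    filter_upwards [h] with u hu
    have h3 : ENNReal.ofReal (Real.exp (X u ω)) = 0 := hu
    rw [ENNReal.ofReal_eq_zero] at h3
    exact absurd (Real.exp_pos (X u ω)) (not_lt.mpr h3)
  have h4 := h2.exists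
  obtain ⟨_, h5⟩ := h4
  exact h5

theorem mom_nu {Ω : Type} [MeasurableSpace Ω] (P : Measure Ω) (A : Set ℝ) (h0 : 0 < volume A)
    (h1 : volume A ≠ ∞) (X : ℝ → Ω → ℝ) (hX : Measurable (Function.uncurry X)) (a : ℝ) :
    mom P A X a = (volume A) ^ a *
      ∫⁻ ω, (∫⁻ u, ENNReal.ofReal (Real.exp (X u ω)) ∂(nu A)) ^ a ∂P := by
  unfold mom
  rw [← lintegral_const_mul' _ _ (ENNReal.rpow_ne_top_of_ne_zero h0.ne' h1)]
  refine lintegral_congr fun ω => ?_
  rw [mas_nu A h0 h1 X ω,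
    ENNReal.mul_rpow_of_ne_zero h0.ne' (int_ne_zero A h0 h1 X hX ω)]

theorem pt_bd (hL : S_LNM) {Ω : Type} [MeasurableSpace Ω] (P : Measure Ω) [IsProbabilityMeasure P]
    (A : Set ℝ) (hA : MeasurableSet A) (X : ℝ → Ω → ℝ) (K : ℝ → ℝ → ℝ) (hX : LNF A P X K)
    (V : ℝ) (hV : ∀ t ∈ A, K t t ≤ V) (b : ℝ) :
    ∃ C : ℝ≥0∞, C ≠ ∞ ∧ ∀ᵐ u ∂(nu A), ∫⁻ ω, ENNReal.ofReal (Real.exp (X u ω)) ^ b ∂P ≤ C := by
  refine ⟨ex (|b ^ 2 - b| / 2 * max V 0), ENNReal.ofReal_ne_top, ?_⟩
  filter_upwards [nu_ae A hA] with u hu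
  have h := hL Ω P A X K hX u hu b
  have h2 : ∫⁻ ω, ENNReal.ofReal (Real.exp (X u ω)) ^ b ∂P = ex ((b ^ 2 - b) / 2 * K u u) := h
  rw [h2]
  unfold ex
  refine ENNReal.ofReal_le_ofReal (Real.exp_le_exp.mpr ?_)
  have hK0 : 0 ≤ K u u := by
    rw [← hX.cov u hu u hu]
    have hm : Measurable (X u) := hX.meas.comp (measurable_const.prodMk measurable_id)
    rw [covariance_self hm.aemeasurable]
    exact variance_nonneg _ _
  have hK1 : K u u ≤ max V 0 := (hV u hu).trans (le_max_left _ _)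
  have h3 : (b ^ 2 - b) / 2 ≤ |b ^ 2 - b| / 2 := by
    have := le_abs_self (b ^ 2 - b)
    linarith
  have h4 : 0 ≤ |b ^ 2 - b| / 2 := by positivity
  calc (b ^ 2 - b) / 2 * K u u ≤ |b ^ 2 - b| / 2 * K u u := mul_le_mul_of_nonneg_right h3 hK0
    _ ≤ |b ^ 2 - b| / 2 * max V 0 := mul_le_mul_of_nonneg_left hK1 h4

theorem inf_ae (A : Set ℝ) (hA : MeasurableSet A) (h0 : 0 < volume A) (h1 : volume A ≠ ∞) :
    ∀ᵐ U ∂(Measure.infinitePi fun _ : ℕ => nu A), ∀ i, U i ∈ A := by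
  have := nu_prob A h0 h1
  rw [ae_all_iff]
  intro i
  have hmp := measurePreserving_eval_infinitePi (fun _ : ℕ => nu A) i
  have h2 : ∀ᵐ u ∂((Measure.infinitePi fun _ : ℕ => nu A).map (Function.eval i)), u ∈ A := by
    rw [hmp.map_eq]
    exact nu_ae A hA
  exact ae_of_ae_map (measurable_pi_apply i).aemeasurable h2

theorem t_KAH : S_LNM → S_KFD → S_TRP → S_KAH := by
  intro hL hF hT Ω Ω' _ _ P P' _ _ A X Y K L hA h0 h1 hX hY hV hKL a
  obtain ⟨V, hV⟩ := hV
  have := nu_prob A h0 h1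
  have hKV : ∀ t ∈ A, K t t ≤ V := fun t ht => (hKL t ht t ht).trans (hV t ht)
  have hmX : Measurable (Function.uncurry fun u ω => Real.exp (X u ω)) :=
    Real.measurable_exp.comp hX.meas
  have hmY : Measurable (Function.uncurry fun u ω => Real.exp (Y u ω)) :=
    Real.measurable_exp.comp hY.meas
  have hTX := (hT ℝ Ω (nu A) P (fun u ω => Real.exp (X u ω)) hmX
    (fun u ω => Real.exp_pos _) (pt_bd hL P A hA X K hX V hKV) a).1
  have hTY := (hT ℝ Ω' (nu A) P' (fun u ω => Real.exp (Y u ω)) hmY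
    (fun u ω => Real.exp_pos _) (pt_bd hL P' A hA Y L hY V hV) a).1
  have hc : ∀ n : ℕ, ENNReal.ofReal (n + 1) ^ (-a) ≠ ∞ := by
    intro n
    refine ENNReal.rpow_ne_top_of_ne_zero ?_ ENNReal.ofReal_ne_top
    have : (0 : ℝ) < (n : ℝ) + 1 := by positivity
    exact (ENNReal.ofReal_pos.mpr this).ne'
  have hpt := fun (U : ℕ → ℝ) (hU : ∀ i, U i ∈ A) (n : ℕ) =>
    hF (n + 1) (Nat.succ_pos n) Ω Ω' P P' (fun i ω => X (U i) ω) (fun i ω => Y (U i) ω)
      (hX.gauss (n + 1) (fun i => U i) (fun i => hU i))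
      (hY.gauss (n + 1) (fun i => U i) (fun i => hU i))
      (fun i => by
        have e1 := hX.mean (U i) (hU i)
        have e2 := hX.cov (U i) (hU i) (U i) (hU i)
        have e3 : cov[fun ω => X (U i) ω, fun ω => X (U i) ω; P] = K (U i) (U i) := e2
        rw [e3]
        exact e1)
      (fun i => by
        have e1 := hY.mean (U i) (hU i)
        have e2 := hY.cov (U i) (hU i) (U i) (hU i)
        have e3 : cov[fun ω => Y (U i) ω, fun ω => Y (U i) ω; P'] = L (U i) (U i) := e2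
        rw [e3]
        exact e1)
      (fun i j => by
        have e2 : cov[fun ω => X (U i) ω, fun ω => X (U j) ω; P] = K (U i) (U j) :=
          hX.cov (U i) (hU i) (U j) (hU j)
        have e3 : cov[fun ω => Y (U i) ω, fun ω => Y (U j) ω; P'] = L (U i) (U j) :=
          hY.cov (U i) (hU i) (U j) (hU j)
        rw [e2, e3]
        exact hKL _ (hU i) _ (hU j)) a
  refine ⟨fun ha => ?_, fun ha0 ha1 => ?_⟩
  · rw [mom_nu P A h0 h1 X hX.meas a, mom_nu P' A h0 h1 Y hY.meas a]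
    refine mul_le_mul_right ?_ _
    refine le_of_tendsto_of_tendsto' hTX hTY fun n => ?_
    refine lintegral_mono_ae ?_
    filter_upwards [inf_ae A hA h0 h1] with U hU
    rw [lintegral_mul_const' _ _ (hc n), lintegral_mul_const' _ _ (hc n)]
    exact mul_le_mul_left ((hpt U hU n).1 ha) _
  · rw [mom_nu P A h0 h1 X hX.meas a, mom_nu P' A h0 h1 Y hY.meas a]
    refine mul_le_mul_right ?_ _
    refine le_of_tendsto_of_tendsto' hTY hTX fun n => ?_
    refine lintegral_mono_ae ?_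
    filter_upwards [inf_ae A hA h0 h1] with U hU
    rw [lintegral_mul_const' _ _ (hc n), lintegral_mul_const' _ _ (hc n)]
    exact mul_le_mul_left ((hpt U hU n).2 ha0 ha1) _

end Pool.Agent.H670.CG.KAH
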